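import Mathlib
import Pool.Agent.helper98.SUD.Main

/-!
# The Sudoku number of the random cubic graph is asymptotically `n / 4`

For each `ε > 0` the proportion of the `3`-regular graphs `G` on `n = 2 m` labelled vertices with
`|s(G) - n / 4| ≤ ε n` tends to `1` as `m → ∞`.

Method.  Orient the edges and label them with three labels, so that each vertex is a source with
three equal labels or has exactly one outgoing edge and three distinct labels.  The sources and one
vertex of each directed cycle then form a Sudoku set, and exactly a quarter of the vertices are
sources.  The second moment of the number of such structures in the configuration model is, up to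
a polynomial factor, the square of the first (this rests on a sharp inequality for two
three by three matrices); so with probability at least `n ^ (-C)` there is a structure with at most
`24` exceptional vertices, and by concentration with overwhelming probability there is one with
`o(n)` exceptional vertices.  A connected region of `o(n)` vertices containing them is recoloured.
-/

namespace Pool.Agent.Results.MP_baf3e3_co.SudokuNumber

open Finset Filter Pool.H98.Sud
open scoped Classical Topology

theorem result (ε : ℝ) (hε : 0 < ε) :
    Tendsto (fun m : ℕ =>
      ((univ.filter (fun G : SimpleGraph (Fin (2 * m)) =>
        Cubic G ∧ |(sudokuNumber G : ℝ) - (2 * m : ℕ) / 4| ≤ ε * (2 * m : ℕ))).card : ℝ) /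
      ((univ.filter (fun G : SimpleGraph (Fin (2 * m)) => Cubic G)).card : ℝ)) atTop (𝓝 1) :=
  main ε hε

end Pool.Agent.Results.MP_baf3e3_co.SudokuNumber
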